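import Pool.Agent.W96.CL.Stm

set_option autoImplicit false

open Polynomial Filter Topology

namespace W96CL

namespace PhaseAux

theorem slit (ξ : ℂ) (h : ¬ (ξ.im = 0 ∧ 0 < ξ.re)) (x : ℝ) (hx : 0 < x) :
    1 - ξ / (x : ℂ) ∈ Complex.slitPlane := by
  rw [Complex.mem_slitPlane_iff]
  have e1 : (1 - ξ / (x : ℂ)).re = 1 - ξ.re / x := by
    rw [Complex.sub_re, Complex.one_re, Complex.div_ofReal_re]
  have e2 : (1 - ξ / (x : ℂ)).im = -(ξ.im / x) := by
    rw [Complex.sub_im, Complex.one_im, Complex.div_ofReal_im, zero_sub]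
  rw [e1, e2]
  by_cases him : ξ.im = 0
  · left
    have hre : ξ.re ≤ 0 := by
      by_contra hc
      exact h ⟨him, not_le.1 hc⟩
    have : ξ.re / x ≤ 0 := div_nonpos_of_nonpos_of_nonneg hre hx.le
    linarith
  · right
    exact neg_ne_zero.2 (div_ne_zero him hx.ne')

theorem slit0 (ξ : ℂ) (h0 : ξ ≠ 0) (h : ¬ (ξ.im = 0 ∧ 0 < ξ.re)) : -ξ ∈ Complex.slitPlane := by
  rw [Complex.mem_slitPlane_iff, Complex.neg_re, Complex.neg_im]
  by_cases him : ξ.im = 0
  · left
    have hre : ξ.re ≤ 0 := by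
      by_contra hc
      exact h ⟨him, not_le.1 hc⟩
    have hne : ξ.re ≠ 0 := fun hc => h0 (Complex.ext hc him)
    have := lt_of_le_of_ne hre hne
    linarith
  · right
    exact neg_ne_zero.2 him

theorem arg_eq (ξ : ℂ) (x : ℝ) (hx : 0 < x) : (1 - ξ / (x : ℂ)).arg = ((x : ℂ) - ξ).arg := by
  have hx0 : (x : ℂ) ≠ 0 := by exact_mod_cast hx.ne'
  have h1 : (x : ℂ) - ξ = (x : ℂ) * (1 - ξ / (x : ℂ)) := by
    field_simp
  rw [h1, Complex.arg_real_mul _ hx]

theorem one (ξ : ℂ) (h0 : ξ ≠ 0) (h : ¬ (ξ.im = 0 ∧ 0 < ξ.re)) :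
    ContinuousOn (fun x : ℝ => (1 - ξ / (x : ℂ)).arg) (Set.Ioi 0) ∧
    Tendsto (fun x : ℝ => (1 - ξ / (x : ℂ)).arg) atTop (𝓝 0) ∧
    Tendsto (fun x : ℝ => (1 - ξ / (x : ℂ)).arg) (𝓝[>] 0) (𝓝 (-ξ).arg) ∧
    ∀ x : ℝ, 0 < x → (x : ℂ) - ξ =
      (‖(x : ℂ) - ξ‖ : ℂ) * Complex.exp (((1 - ξ / (x : ℂ)).arg : ℝ) * Complex.I) := by
  refine ⟨?_, ?_, ?_, ?_⟩
  · intro x hx
    have hx : 0 < x := hx
    have hx0 : (x : ℂ) ≠ 0 := by exact_mod_cast hx.ne'
    apply ContinuousAt.continuousWithinAt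
    have h1 : ContinuousAt (fun x : ℝ => 1 - ξ / (x : ℂ)) x := by
      apply ContinuousAt.sub continuousAt_const
      exact ContinuousAt.div continuousAt_const Complex.continuous_ofReal.continuousAt hx0
    exact ContinuousAt.comp (x := x) (f := fun x : ℝ => 1 - ξ / (x : ℂ)) (g := Complex.arg)
      (Complex.continuousAt_arg (slit ξ h x hx)) h1
  · have h1 : Tendsto (fun x : ℝ => 1 - ξ / (x : ℂ)) atTop (𝓝 1) := by
      have h2 : Tendsto (fun x : ℝ => ((x : ℂ))⁻¹) atTop (𝓝 0) := by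
        have h3 : Tendsto (fun x : ℝ => ((x⁻¹ : ℝ) : ℂ)) atTop (𝓝 ((0 : ℝ) : ℂ)) :=
          (Complex.continuous_ofReal.tendsto 0).comp tendsto_inv_atTop_zero
        simpa using h3
      have h4 := (tendsto_const_nhds (x := (1 : ℂ))).sub (h2.const_mul ξ)
      rw [mul_zero, sub_zero] at h4
      exact h4
    have h5 : ContinuousAt Complex.arg 1 := Complex.continuousAt_arg (by simp)
    have h6 := h5.tendsto.comp h1
    rw [Complex.arg_one] at h6
    exact h6
  · have h1 : Tendsto (fun x : ℝ => (x : ℂ) - ξ) (𝓝[>] 0) (𝓝 (-ξ)) := by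
      have h2 : Tendsto (fun x : ℝ => (x : ℂ) - ξ) (𝓝 0) (𝓝 (((0 : ℝ) : ℂ) - ξ)) :=
        (Complex.continuous_ofReal.tendsto 0).sub_const ξ
      rw [Complex.ofReal_zero, zero_sub] at h2
      exact h2.mono_left nhdsWithin_le_nhds
    have h5 : ContinuousAt Complex.arg (-ξ) := Complex.continuousAt_arg (slit0 ξ h0 h)
    refine (h5.tendsto.comp h1).congr' ?_
    filter_upwards [self_mem_nhdsWithin] with x hx
    exact (arg_eq ξ x hx).symm
  · intro x hx
    rw [arg_eq ξ x hx]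
    exact (Complex.norm_mul_exp_arg_mul_I _).symm

end PhaseAux

open PhaseAux in
theorem cl_phase : S_phase := by
  intro R
  induction R using Multiset.induction_on with
  | empty =>
    intro _
    have h0 : Phs 0 = fun _ => 0 := by
      funext x
      simp [Phs]
    rw [h0]
    refine ⟨continuousOn_const, tendsto_const_nhds, ?_, fun x _ => ?_⟩
    · simp
    · simp
  | cons a R ih =>
    intro hR
    obtain ⟨h1, h2, h3, h4⟩ := ih fun ξ hξ => hR ξ (Multiset.mem_cons_of_mem hξ)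
    obtain ⟨ha0, ha⟩ := hR a (Multiset.mem_cons_self a R)
    obtain ⟨k1, k2, k3, k4⟩ := one a ha0 ha
    have e : Phs (a ::ₘ R) = fun x : ℝ => (1 - a / (x : ℂ)).arg + Phs R x := by
      funext x
      simp [Phs]
    rw [e]
    refine ⟨k1.add h1, ?_, ?_, fun x hx => ?_⟩
    · have := k2.add h2
      rwa [add_zero] at this
    · rw [Multiset.map_cons, Multiset.sum_cons]
      exact k3.add h3
    · rw [Multiset.map_cons, Multiset.prod_cons, norm_mul, Complex.ofReal_mul, Complex.ofReal_add,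
        add_mul, Complex.exp_add]
      conv_lhs => rw [h4 x hx, k4 x hx]
      ring

end W96CL
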